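import Mathlib

namespace Pool.Agent.Results.MP_8c8deb_an.NoUnif

open Set Matrix

set_option maxHeartbeats 400000

/-- The product `A_n B_n ⋯ A_1 B_1` (sequences indexed from `0`). -/
def P {d : ℕ} (A B : ℕ → Matrix (Fin d) (Fin d) ℝ) : ℕ → Matrix (Fin d) (Fin d) ℝ
  | 0 => 1
  | n + 1 => A n * B n * P A B n

noncomputable def A0 : Matrix (Fin 5) (Fin 5) ℝ :=
  !![1, 0, 0, 0, 0; 0, 1 / 2, 0, 0, 0; 0, 0, 1, 0, 0; 0, 0, 0, 1, 0; 0, 0, 0, 0, 1]
def A1 : Matrix (Fin 5) (Fin 5) ℝ :=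
  !![0, 0, 0, 0, 0; 2, 0, 0, 0, 0; 2, 0, 0, 0, 0; 0, 2, 0, 4, 0; 0, 0, 2, 0, 2]
def R : Matrix (Fin 5) (Fin 5) ℝ :=
  !![1, 0, 1, 2, -2; 0, 0, 0, 0, 0; 0, 0, 0, 0, 0; 0, 0, 0, 0, 0; 0, 0, 0, 0, 0]

theorem a0 (a b c d e : ℝ) : A0 *ᵥ ![a, b, c, d, e] = ![a, b / 2, c, d, e] := by
  ext i; fin_cases i <;> simp [A0, mulVec, dotProduct, Fin.sum_univ_five]; ring
theorem a1 (a b c d e : ℝ) :
    A1 *ᵥ ![a, b, c, d, e] = ![0, 2 * a, 2 * a, 2 * b + 4 * d, 2 * c + 2 * e] := by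
  ext i; fin_cases i <;> simp [A1, mulVec, dotProduct, Fin.sum_univ_five]
theorem rr (a b c d e : ℝ) : R *ᵥ ![a, b, c, d, e] = ![a + c + 2 * d - 2 * e, 0, 0, 0, 0] := by
  ext i; fin_cases i <;> simp [R, mulVec, dotProduct, Fin.sum_univ_five]; ring

theorem eta (v : Fin 5 → ℝ) : v = ![v 0, v 1, v 2, v 3, v 4] := by
  ext i; fin_cases i <;> rfl

theorem ne01 : A0 ≠ A1 := fun h => by simpa [A0, A1] using congrFun (congrFun h 0) 0

def St (M c r : ℕ) (v : Fin 5 → ℝ) : Prop :=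
  ∃ y : ℝ, 2 ^ c ≤ |y| ∧ (v = ![y, 0, 0, 0, 0] ∨ v = ![0, y / 2 ^ r, y, 0, 0] ∨
    ∃ j < c, v = ![0, 0, 0, y * 2 ^ j / 2 ^ M, y])

theorem stR {M c r v} (hc : c ≤ M) (h : St M c r v) : St M c r (R *ᵥ v) := by
  obtain ⟨y, h1, rfl | rfl | ⟨j, hj, rfl⟩⟩ := h <;> rw [rr]
  · exact ⟨y, h1, Or.inl (by simp)⟩
  · exact ⟨y, h1, Or.inl (by simp)⟩
  · refine ⟨_, h1.trans ?_, Or.inl rfl⟩
    have h2 : (2:ℝ) ^ (j + 1) ≤ 2 ^ M := pow_le_pow_right₀ (by norm_num) (by omega)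
    have h3 : (2:ℝ) * 2 ^ j / 2 ^ M ≤ 1 := by rw [div_le_one (by positivity), ← pow_succ']; exact h2
    rw [show 0 + 0 + 2 * (y * 2 ^ j / 2 ^ M) - 2 * y = y * -(2 - 2 * 2 ^ j / 2 ^ M) by ring,
      abs_mul, abs_neg]
    exact le_mul_of_one_le_right (abs_nonneg _) (le_trans (by linarith) (le_abs_self _))

theorem st0 {M c r v} (h : St M c r v) : St M c (r + 1) (A0 *ᵥ v) := by
  obtain ⟨y, h1, rfl | rfl | ⟨j, hj, rfl⟩⟩ := h <;> rw [a0]
  · exact ⟨y, h1, Or.inl (by simp)⟩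
  · exact ⟨y, h1, Or.inr (Or.inl (by rw [pow_succ, div_div]))⟩
  · exact ⟨y, h1, Or.inr (Or.inr ⟨j, hj, by simp⟩)⟩

theorem st1 {M c v} (h : St M c M v) : St M (c + 1) 0 (A1 *ᵥ v) := by
  obtain ⟨y, h1, h⟩ := h
  refine ⟨2 * y, by rw [abs_mul, abs_two, pow_succ']; linarith, Or.inr ?_⟩
  obtain rfl | rfl | ⟨j, hj, rfl⟩ := h <;> rw [a1]
  · exact Or.inl (by simp)
  · exact Or.inr ⟨0, by omega, by simp [mul_div_assoc]⟩
  · refine Or.inr ⟨j + 1, by omega, ?_⟩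
    simp only [mul_zero, zero_add]
    congr 4; ring

theorem bdd {A B : ℕ → Matrix (Fin 5) (Fin 5) ℝ} (N : ℕ)
    (h : ∀ n ≥ N, ∀ i j, |P A B (n + 1) i j| ≤ |P A B n i j|) :
    ∃ C, ∀ n i j, |P A B n i j| ≤ C := by
  obtain ⟨C, hC⟩ := (((finite_Iic N).prod (finite_univ (α := Fin 5 × Fin 5))).image
    fun p => |P A B p.1 p.2.1 p.2.2|).bddAbove
  refine ⟨C, fun n i j => ?_⟩
  rcases le_total n N with hn | hn
  · exact hC ⟨(n, i, j), ⟨hn, trivial⟩, rfl⟩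
  · induction n, hn using Nat.le_induction with
    | base => exact hC ⟨(N, i, j), ⟨le_refl N, trivial⟩, rfl⟩
    | succ n hn ih => exact (h n hn i j).trans ih

theorem kill {A : ℕ → Matrix (Fin 5) (Fin 5) ℝ} (hA : ∀ n, A n = A0 ∨ A n = A1)
    (h : ∀ N, ∃ n ≥ N, A n = A1) {B : ℕ → Matrix (Fin 5) (Fin 5) ℝ} (h0 : B 0 = R)
    (h1 : ∀ n, B (n + 1) = 1) : ∃ T, R * P A B (T + 1) = 0 := by
  let S0 : ℕ → Prop := fun n => ∀ v, ∃ y, P A B n *ᵥ v = ![y, 0, 0, 0, 0]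
  let S1 : ℕ → ℕ → Prop := fun n r => ∀ v, ∃ y : ℝ, P A B n *ᵥ v = ![0, y / 2 ^ r, y, 0, 0]
  let S2 : ℕ → ℕ → Prop := fun n r => ∀ v, ∃ y : ℝ, P A B n *ᵥ v = ![0, 0, 0, y / 2 ^ r, y]
  have e : ∀ n v, P A B (n + 2) *ᵥ v = A (n + 1) *ᵥ (P A B (n + 1) *ᵥ v) := fun n v => by
    rw [P, h1, Matrix.mul_one, mulVec_mulVec]
  have wait : ∀ Q Q' : ℕ → Prop, (∀ n, Q (n + 1) → A (n + 1) = A0 → Q (n + 2)) →
      (∀ n, Q (n + 1) → A (n + 1) = A1 → Q' (n + 2)) → ∀ n, Q (n + 1) → ∃ m, Q' (m + 1) := by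
    intro Q Q' q0 q1 n hn
    by_contra hc
    push Not at hc
    obtain ⟨m, hm, hm'⟩ := h (n + 1)
    obtain ⟨m, rfl⟩ : ∃ k, m = n + k + 1 := ⟨m - n - 1, by omega⟩
    have : ∀ k, Q (n + k + 1) := fun k => by
      induction k with
      | zero => exact hn
      | succ k ih => exact q0 _ ih ((hA _).resolve_right fun h => hc _ (q1 _ ih h))
    exact hc _ (q1 _ (this m) hm')
  have s1 : ∃ m, ∃ r, S1 (m + 1) r := by
    have e0 : ∀ v, ∃ y, P A B 1 *ᵥ v = A 0 *ᵥ ![y, 0, 0, 0, 0] := fun v =>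
      ⟨v 0 + v 2 + 2 * v 3 - 2 * v 4, by
        rw [P, P, h0, Matrix.mul_one, ← mulVec_mulVec, ← rr, ← eta v]⟩
    rcases hA 0 with h | h
    · refine wait S0 (fun n => ∃ r, S1 n r) (fun n hn h v => ?_) (fun n hn h => ⟨0, fun v => ?_⟩)
        0 fun v => ?_
      · obtain ⟨y, hy⟩ := hn v; exact ⟨y, by rw [e, hy, h, a0]; simp⟩
      · obtain ⟨y, hy⟩ := hn v; exact ⟨2 * y, by rw [e, hy, h, a1]; simp⟩
      · obtain ⟨y, hy⟩ := e0 v; exact ⟨y, by rw [zero_add, hy, h, a0]; simp⟩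
    · refine ⟨0, 0, fun v => ?_⟩
      obtain ⟨y, hy⟩ := e0 v; exact ⟨2 * y, by rw [zero_add, hy, h, a1]; simp⟩
  obtain ⟨m, hm⟩ := s1
  obtain ⟨m, r, hm⟩ := wait (fun n => ∃ r, S1 n r) (fun n => ∃ r, S2 n r)
    (fun n ⟨r, hn⟩ h => ⟨r + 1, fun v => by
      obtain ⟨y, hy⟩ := hn v; exact ⟨y, by rw [e, hy, h, a0, pow_succ, div_div]⟩⟩)
    (fun n ⟨r, hn⟩ h => ⟨r, fun v => by
      obtain ⟨y, hy⟩ := hn v; exact ⟨2 * y, by rw [e, hy, h, a1]; simp [mul_div_assoc]⟩⟩) m hm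
  induction r generalizing m with
  | zero =>
    refine ⟨m, (Matrix.ext_iff_mulVec).2 fun v => ?_⟩
    obtain ⟨y, hy⟩ := hm v
    rw [← mulVec_mulVec, hy, rr, zero_mulVec]
    ext i; fin_cases i <;> simp
  | succ r ih =>
    obtain ⟨k, hk⟩ := wait (fun n => S2 n (r + 1)) (fun n => S2 n r)
      (fun n hn h v => by obtain ⟨y, hy⟩ := hn v; exact ⟨y, by rw [e, hy, h, a0]; simp⟩)
      (fun n hn h v => by
        obtain ⟨y, hy⟩ := hn v
        refine ⟨2 * y, ?_⟩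
        rw [e, hy, h, a1]
        simp only [mul_zero, zero_add]
        congr 4; ring) m hm
    exact ih k hk

theorem result : ∃ (d : ℕ) (SA SB : Finset (Matrix (Fin d) (Fin d) ℝ)), SA.Nonempty ∧
    SB.Nonempty ∧
    (∀ A : ℕ → Matrix (Fin d) (Fin d) ℝ, (∀ n, A n ∈ SA) →
      ∃ B : ℕ → Matrix (Fin d) (Fin d) ℝ, (∀ n, B n ∈ SB) ∧ ∃ C, ∀ n i j, |P A B n i j| ≤ C) ∧
    ∀ C : ℝ, ∃ A : ℕ → Matrix (Fin d) (Fin d) ℝ, (∀ n, A n ∈ SA) ∧
      ∀ B : ℕ → Matrix (Fin d) (Fin d) ℝ, (∀ n, B n ∈ SB) → ∃ n ≥ 1, ∃ i j, C < |P A B n i j| := by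
  classical
  refine ⟨5, {A0, A1}, {1, R}, by simp, by simp, fun A hA => ?_, fun C => ?_⟩
  · simp only [Finset.mem_insert, Finset.mem_singleton] at hA ⊢
    by_cases h : ∀ N, ∃ n ≥ N, A n = A1
    · obtain ⟨T, hT⟩ := kill hA h (B := fun n => if n = 0 then R else 1) rfl (by simp)
      let B : ℕ → Matrix (Fin 5) (Fin 5) ℝ := fun n => if n = 0 ∨ n = T + 1 then R else 1
      have h1 : ∀ n ≤ T + 1, P A B n = P A (fun n => if n = 0 then R else 1) n := by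
        intro n hn
        induction n with
        | zero => rfl
        | succ n ih =>
          rw [P, P, ih (by omega)]
          simp only [B, show n ≠ T + 1 by omega, or_false]
      have h2 : ∀ n ≥ T + 2, P A B n = 0 := by
        intro n hn
        induction n, hn using Nat.le_induction with
        | base => rw [P, h1 _ le_rfl, Matrix.mul_assoc]; simp only [B, or_true, if_true, hT, mul_zero]
        | succ n _ ih => rw [P, ih, mul_zero]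
      refine ⟨B, fun n => by simp only [B]; split_ifs <;> simp, bdd (T + 2) fun n hn i j => ?_⟩
      rw [h2 n hn, h2 _ (by omega)]
    · push Not at h
      obtain ⟨N, hN⟩ := h
      refine ⟨fun _ => 1, fun _ => Or.inl rfl, bdd N fun n hn i j => ?_⟩
      rw [P, (hA n).resolve_right (hN n hn), Matrix.mul_one]
      fin_cases i <;> simp [A0, Matrix.mul_apply, Fin.sum_univ_five, abs_mul]
      exact mul_le_of_le_one_left (abs_nonneg _) (by norm_num)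
  · obtain ⟨M, hM⟩ := pow_unbounded_of_one_lt C (show (1:ℝ) < 2 by norm_num)
    refine ⟨fun n => if n % (M + 1) = 0 then A1 else A0, fun n => by
      dsimp only; split_ifs <;> simp, fun B hB => ?_⟩
    set A : ℕ → Matrix (Fin 5) (Fin 5) ℝ := fun n => if n % (M + 1) = 0 then A1 else A0 with hA
    have hB' : ∀ n c r v, c ≤ M → St M c r v → St M c r (B n *ᵥ v) := fun n c r v hc h => by
      rcases Finset.mem_insert.1 (hB n) with e | e
      · rw [e, one_mulVec]; exact h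
      · rw [Finset.mem_singleton.1 e]; exact stR hc h
    let v : ℕ → Fin 5 → ℝ := fun n => P A B n *ᵥ ![1, 0, 0, 0, 0]
    have e : ∀ n, v (n + 1) = A n *ᵥ (B n *ᵥ v n) := fun n => by
      simp only [v, P, mulVec_mulVec, Matrix.mul_assoc]
    have s1 : ∀ c ≤ M, St M c M (v (c * (M + 1))) → St M (c + 1) 0 (v (c * (M + 1) + 1)) :=
      fun c hc h => by
        rw [e, show A (c * (M + 1)) = A1 from if_pos (Nat.mul_mod_left _ _)]
        exact st1 (hB' _ _ _ _ hc h)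
    have h1 : ∀ c ≤ M, St M c M (v (c * (M + 1))) := by
      intro c hc
      induction c with
      | zero => exact ⟨1, by simp, Or.inl (by simp [v, P])⟩
      | succ c ih =>
        have h2 : ∀ r ≤ M, St M (c + 1) r (v (c * (M + 1) + (r + 1))) := by
          intro r hr
          induction r with
          | zero => exact s1 c (by omega) (ih (by omega))
          | succ r ih' =>
            rw [← add_assoc, e, show A (c * (M + 1) + (r + 1)) = A0 from if_neg (by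
              rw [Nat.mul_add_mod_of_lt (by omega)]; omega)]
            exact st0 (hB' _ _ _ _ hc (ih' (by omega)))
        rw [add_mul, one_mul]; exact h2 M le_rfl
    obtain ⟨y, y1, y2⟩ := s1 M le_rfl (h1 M le_rfl)
    have h3 : ∀ i, v (M * (M + 1) + 1) i = P A B (M * (M + 1) + 1) i 0 := fun i => by
      simp [v, mulVec, dotProduct, Fin.sum_univ_five]
    have h4 : C < |y| := by
      rw [pow_succ] at y1; linarith [(by positivity : (0:ℝ) < 2 ^ M)]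
    refine ⟨M * (M + 1) + 1, by omega, ?_⟩
    obtain h | h | ⟨j, -, h⟩ := y2
    · exact ⟨0, 0, by rw [← h3, h]; exact h4⟩
    · exact ⟨2, 0, by rw [← h3, h]; exact h4⟩
    · exact ⟨4, 0, by rw [← h3, h]; exact h4⟩

end Pool.Agent.Results.MP_8c8deb_an.NoUnif
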